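import Pool.Agent.H47.MED.Stmts

set_option autoImplicit false

namespace Pool.MED

open Finset

/-- FLT: pairs of one class (see `S_FLT`). -/
theorem flt_thm : S_FLT := by
  intro D T p P Z hD hT hp hP hZ hdet
  have hDR : (0 : ℝ) < D := by exact_mod_cast hD
  have hTD : 0 ≤ T / D := div_nonneg hT hDR.le
  have hPp : 0 ≤ P / p := div_nonneg hP hp.le
  rcases Z.eq_empty_or_nonempty with h0 | ⟨w0, hw0⟩
  · subst h0
    simp only [card_empty, Nat.cast_zero]
    have : 0 ≤ 2 * T / D := by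
      rw [mul_div_assoc]; linarith
    positivity
  obtain ⟨hy0, hz0, hne, hpy, -⟩ := hZ w0 hw0
  have hy0R : (0 : ℝ) < w0.1 := by exact_mod_cast hy0.pos
  set A : ℕ := ⌊T / D⌋₊ with hA
  set B : ℕ := ⌊P / w0.1⌋₊ with hB
  have key : Z.card ≤ ((Icc (-(A : ℤ)) A) ×ˢ (range (B + 1))).card := by
    apply Finset.card_le_card_of_injOn
      (fun u : ℕ × ℕ => (((w0.2 : ℤ) * u.1 - u.2 * w0.1) / (D : ℤ), u.1 / w0.1))
    · intro u hu
      have hu' : u ∈ Z := hu
      obtain ⟨hdvd, habs⟩ := hdet w0 hw0 u hu'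
      obtain ⟨n, hn⟩ := hdvd
      have hDZ : (D : ℤ) ≠ 0 := by exact_mod_cast hD.ne'
      have hq : ((w0.2 : ℤ) * u.1 - u.2 * w0.1) / (D : ℤ) = n := by
        rw [hn]; exact Int.mul_ediv_cancel_left n hDZ
      have hnR : ((w0.2 : ℝ) * u.1 - u.2 * w0.1) = D * n := by exact_mod_cast hn
      have hnabs : |(n : ℝ)| ≤ T / D := by
        rw [hnR, abs_mul, abs_of_pos hDR] at habs
        rw [le_div_iff₀ hDR]; linarith
      have hnA : n.natAbs ≤ A := by
        rw [hA]
        apply Nat.le_floor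
        rw [Nat.cast_natAbs, Int.cast_abs]
        exact hnabs
      have hn2 : -(A : ℤ) ≤ n ∧ n ≤ A := by
        constructor <;> omega
      have hux : u.1 / w0.1 ≤ B := by
        rw [hB]
        apply Nat.le_floor
        refine (Nat.cast_div_le).trans ?_
        exact div_le_div_of_nonneg_right (hZ u hu').2.2.2.2 hy0R.le
      simp only [coe_product, Set.mem_prod, mem_coe, mem_Icc, mem_range]
      rw [hq]
      exact ⟨hn2, by omega⟩
    · intro u hu v hv huv
      have hu' : u ∈ Z := hu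
      have hv' : v ∈ Z := hv
      obtain ⟨⟨n, hn⟩, -⟩ := hdet w0 hw0 u hu'
      obtain ⟨⟨m, hm⟩, -⟩ := hdet w0 hw0 v hv'
      have hDZ : (D : ℤ) ≠ 0 := by exact_mod_cast hD.ne'
      simp only [Prod.mk.injEq] at huv
      obtain ⟨h1, h2⟩ := huv
      rw [hn, hm, Int.mul_ediv_cancel_left n hDZ, Int.mul_ediv_cancel_left m hDZ] at h1
      have h3 : (w0.2 : ℤ) * ((u.1 : ℤ) - v.1) = w0.1 * ((u.2 : ℤ) - v.2) := by
        have : (w0.2 : ℤ) * u.1 - u.2 * w0.1 = (w0.2 : ℤ) * v.1 - v.2 * w0.1 := by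
          rw [hn, hm, h1]
        linarith
      have hcop : IsCoprime (w0.1 : ℤ) (w0.2 : ℤ) := by
        rw [Nat.isCoprime_iff_coprime]
        exact (Nat.coprime_primes hy0 hz0).2 hne
      have hd : (w0.1 : ℤ) ∣ (u.1 : ℤ) - v.1 :=
        hcop.dvd_of_dvd_mul_left ⟨_, h3⟩
      have hmod : v.1 % w0.1 = u.1 % w0.1 := by
        have := (Nat.modEq_iff_dvd (n := w0.1) (a := v.1) (b := u.1)).2 hd
        exact this
      have h11 : u.1 = v.1 := by
        rw [← Nat.div_add_mod u.1 w0.1, ← Nat.div_add_mod v.1 w0.1, h2, hmod]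
      have h22 : (w0.1 : ℤ) * ((u.2 : ℤ) - v.2) = 0 := by
        rw [← h3, h11]; ring
      have hyZ : (w0.1 : ℤ) ≠ 0 := by exact_mod_cast hy0.pos.ne'
      have h23 : (u.2 : ℤ) - v.2 = 0 := by
        rcases mul_eq_zero.1 h22 with h | h
        · exact absurd h hyZ
        · exact h
      have h24 : u.2 = v.2 := by omega
      exact Prod.ext h11 h24
  have hcard : ((Icc (-(A : ℤ)) A) ×ˢ (range (B + 1))).card = (2 * A + 1) * (B + 1) := by
    rw [card_product, Int.card_Icc, card_range]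
    congr 1
    omega
  have hAle : (A : ℝ) ≤ T / D := Nat.floor_le hTD
  have hBle : (B : ℝ) ≤ P / p := by
    have h1 : (B : ℝ) ≤ P / w0.1 := Nat.floor_le (div_nonneg hP hy0R.le)
    exact h1.trans (div_le_div_of_nonneg_left hP hp hpy)
  rw [hcard] at key
  have keyR : (Z.card : ℝ) ≤ (2 * A + 1) * (B + 1) := by exact_mod_cast key
  refine keyR.trans ?_
  have h5 : (2 * (A : ℝ) + 1) ≤ 2 * T / D + 1 := by
    rw [mul_div_assoc]; linarith
  have h6 : ((B : ℝ) + 1) ≤ P / p + 1 := by linarith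
  have h7 : (0 : ℝ) ≤ 2 * T / D + 1 := by
    rw [mul_div_assoc]; linarith
  exact mul_le_mul h5 h6 (by positivity) h7

end Pool.MED
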